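import Mathlib
import Pool.Agent.Helper15.LP.Defs

set_option autoImplicit false

/-!
GREEN: bounds for the Green function of a good pair.
-/

open Finset
open scoped Classical
open Pool.Agent.Helper15.LR

namespace Pool.Agent.Helper15.LP

noncomputable section

/-- norm -/
def GREEN_n {V : Type} [Fintype V] (f : V → ℝ) : ℝ := ‖(WithLp.toLp 2 f : EuclideanSpace ℝ V)‖

lemma GREEN_n_sq {V : Type} [Fintype V] (f : V → ℝ) : GREEN_n f ^ 2 = S2 f := by
  unfold GREEN_n S2
  rw [EuclideanSpace.norm_sq_eq]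
  simp

lemma GREEN_n_nonneg {V : Type} [Fintype V] (f : V → ℝ) : 0 ≤ GREEN_n f := norm_nonneg _

lemma GREEN_n_add {V : Type} [Fintype V] (f g : V → ℝ) :
    GREEN_n (fun v => f v + g v) ≤ GREEN_n f + GREEN_n g := by
  unfold GREEN_n
  have h : (WithLp.toLp 2 (fun v => f v + g v) : EuclideanSpace ℝ V) =
      WithLp.toLp 2 f + WithLp.toLp 2 g := by
    ext v; simp
  rw [h]
  exact norm_add_le _ _

lemma GREEN_n_sub {V : Type} [Fintype V] (f g : V → ℝ) :
    GREEN_n (fun v => f v - g v) ≤ GREEN_n f + GREEN_n g := by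
  unfold GREEN_n
  have h : (WithLp.toLp 2 (fun v => f v - g v) : EuclideanSpace ℝ V) =
      WithLp.toLp 2 f - WithLp.toLp 2 g := by
    ext v; simp
  rw [h]
  exact norm_sub_le _ _

lemma GREEN_n_smul {V : Type} [Fintype V] (c : ℝ) (f : V → ℝ) :
    GREEN_n (fun v => c * f v) = |c| * GREEN_n f := by
  unfold GREEN_n
  have h : (WithLp.toLp 2 (fun v => c * f v) : EuclideanSpace ℝ V) =
      c • WithLp.toLp 2 f := by
    ext v; simp
  rw [h, norm_smul, Real.norm_eq_abs]

lemma GREEN_n_le {V : Type} [Fintype V] {f : V → ℝ} {B : ℝ} (hB : 0 ≤ B) (h : S2 f ≤ B ^ 2) :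
    GREEN_n f ≤ B := by
  have h1 := GREEN_n_sq f
  have h2 := GREEN_n_nonneg f
  by_contra hc
  have hc' : B < GREEN_n f := not_le.mp hc
  nlinarith

lemma GREEN_S2_nonneg {V : Type} [Fintype V] (f : V → ℝ) : 0 ≤ S2 f :=
  Finset.sum_nonneg fun _ _ => sq_nonneg _

lemma GREEN_Av_eq {V : Type} [Fintype V] (G : SimpleGraph V) (f : V → ℝ) (v : V) :
    Av G f v = ∑ w, if G.Adj v w then f w else 0 := by
  unfold Av Nb
  rw [Finset.sum_filter]

lemma GREEN_Av_sub {V : Type} [Fintype V] (G : SimpleGraph V) (f h : V → ℝ) (v : V) :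
    Av G (fun w => f w - h w) v = Av G f v - Av G h v := by
  unfold Av
  rw [Finset.sum_sub_distrib]

lemma GREEN_Av_add {V : Type} [Fintype V] (G : SimpleGraph V) (f h : V → ℝ) (v : V) :
    Av G (fun w => f w + h w) v = Av G f v + Av G h v := by
  unfold Av
  rw [Finset.sum_add_distrib]

lemma GREEN_Av_smul {V : Type} [Fintype V] (G : SimpleGraph V) (c : ℝ) (h : V → ℝ) (v : V) :
    Av G (fun w => c * h w) v = c * Av G h v := by
  unfold Av
  rw [Finset.mul_sum]

lemma GREEN_sym {V : Type} [Fintype V] (G : SimpleGraph V) (f h : V → ℝ) :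
    ∑ v, f v * Av G h v = ∑ v, Av G f v * h v := by
  simp_rw [GREEN_Av_eq, Finset.mul_sum, Finset.sum_mul]
  rw [Finset.sum_comm]
  refine Finset.sum_congr rfl fun w _ => Finset.sum_congr rfl fun v _ => ?_
  by_cases hvw : G.Adj v w
  · rw [if_pos hvw, if_pos hvw.symm]
  · rw [if_neg hvw, if_neg (fun h => hvw h.symm)]; ring

lemma GREEN_sumAv {V : Type} [Fintype V] (G : SimpleGraph V) (D : ℕ) (hR : Reg G D) (h : V → ℝ) :
    ∑ v, Av G h v = D * ∑ v, h v := by
  have h1 := GREEN_sym G (fun _ => (1 : ℝ)) h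
  simp only [one_mul] at h1
  rw [h1, Finset.mul_sum]
  refine Finset.sum_congr rfl fun v _ => ?_
  congr 1
  unfold Av
  rw [Finset.sum_const, hR v]
  simp

lemma GREEN_AvSq {V : Type} [Fintype V] (G : SimpleGraph V) (D : ℕ) (hR : Reg G D) (f : V → ℝ)
    (v : V) : Av G f v ^ 2 ≤ D * Av G (fun w => f w ^ 2) v := by
  unfold Av
  have h := sq_sum_le_card_mul_sum_sq (s := Nb G v) (f := f)
  rw [hR v] at h
  exact h

lemma GREEN_S2Av {V : Type} [Fintype V] (G : SimpleGraph V) (D : ℕ) (hR : Reg G D) (f : V → ℝ) :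
    S2 (Av G f) ≤ (D : ℝ) ^ 2 * S2 f := by
  unfold S2
  calc ∑ v, Av G f v ^ 2 ≤ ∑ v, (D : ℝ) * Av G (fun w => f w ^ 2) v :=
        Finset.sum_le_sum fun v _ => GREEN_AvSq G D hR f v
    _ = D * (D * ∑ v, f v ^ 2) := by rw [← Finset.mul_sum, GREEN_sumAv G D hR]
    _ = (D : ℝ) ^ 2 * ∑ v, f v ^ 2 := by ring

lemma GREEN_nAv {V : Type} [Fintype V] (G : SimpleGraph V) (D : ℕ) (hR : Reg G D) (f : V → ℝ) :
    GREEN_n (Av G f) ≤ D * GREEN_n f := by
  apply GREEN_n_le (mul_nonneg (Nat.cast_nonneg _) (GREEN_n_nonneg _))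
  rw [mul_pow, GREEN_n_sq]
  exact GREEN_S2Av G D hR f

lemma GREEN_zero {V : Type} [Fintype V] {f : V → ℝ} (h : GREEN_n f = 0) (v : V) : f v = 0 := by
  have h1 := GREEN_n_sq f
  rw [h] at h1
  have h2 : S2 f = 0 := by rw [← h1]; ring
  unfold S2 at h2
  rw [Finset.sum_eq_zero_iff_of_nonneg (fun v _ => sq_nonneg _)] at h2
  exact pow_eq_zero_iff (two_ne_zero) |>.mp (h2 v (Finset.mem_univ v))

lemma GREEN_bil {V : Type} [Fintype V] (G : SimpleGraph V) (c : V → ℝ) (M : ℝ)
    (hB : ∀ f h : V → ℝ, S2 f ≤ 1 → S2 h ≤ 1 → |∑ v, c v * Av G f v * Av G h v| ≤ M)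
    (f h : V → ℝ) : |∑ v, c v * Av G f v * Av G h v| ≤ M * (GREEN_n f * GREEN_n h) := by
  by_cases hf : GREEN_n f = 0
  · have h0 : ∀ v, Av G f v = 0 := fun v => by
      unfold Av
      exact Finset.sum_eq_zero fun w _ => GREEN_zero hf w
    have h1 : ∑ v, c v * Av G f v * Av G h v = 0 :=
      Finset.sum_eq_zero fun v _ => by rw [h0 v]; ring
    rw [h1, hf]; simp
  by_cases hh : GREEN_n h = 0
  · have h0 : ∀ v, Av G h v = 0 := fun v => by
      unfold Av
      exact Finset.sum_eq_zero fun w _ => GREEN_zero hh w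
    have h1 : ∑ v, c v * Av G f v * Av G h v = 0 :=
      Finset.sum_eq_zero fun v _ => by rw [h0 v]; ring
    rw [h1, hh]; simp
  have hf' : 0 < GREEN_n f := lt_of_le_of_ne (GREEN_n_nonneg f) (Ne.symm hf)
  have hh' : 0 < GREEN_n h := lt_of_le_of_ne (GREEN_n_nonneg h) (Ne.symm hh)
  have key := hB (fun v => (GREEN_n f)⁻¹ * f v) (fun v => (GREEN_n h)⁻¹ * h v)
    (by rw [← GREEN_n_sq, GREEN_n_smul, abs_of_pos (inv_pos.mpr hf'), inv_mul_cancel₀ hf]; simp)
    (by rw [← GREEN_n_sq, GREEN_n_smul, abs_of_pos (inv_pos.mpr hh'), inv_mul_cancel₀ hh]; simp)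
  have e : ∑ v, c v * Av G f v * Av G h v = (GREEN_n f * GREEN_n h) *
      ∑ v, c v * Av G (fun v => (GREEN_n f)⁻¹ * f v) v * Av G (fun v => (GREEN_n h)⁻¹ * h v) v := by
    rw [Finset.mul_sum]
    refine Finset.sum_congr rfl fun v _ => ?_
    rw [GREEN_Av_smul, GREEN_Av_smul]
    field_simp
  rw [e, abs_mul, abs_of_pos (mul_pos hf' hh'), mul_comm]
  exact mul_le_mul_of_nonneg_right key (mul_pos hf' hh').le

lemma GREEN_op {V : Type} [Fintype V] (G : SimpleGraph V) (c : V → ℝ) (M : ℝ) (hM : 0 ≤ M)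
    (hB : ∀ f h : V → ℝ, S2 f ≤ 1 → S2 h ≤ 1 → |∑ v, c v * Av G f v * Av G h v| ≤ M)
    (h : V → ℝ) : GREEN_n (Av G (fun w => c w * Av G h w)) ≤ M * GREEN_n h := by
  set F : V → ℝ := Av G (fun w => c w * Av G h w) with hF
  have h1 : GREEN_n F ^ 2 = ∑ v, c v * Av G F v * Av G h v := by
    rw [GREEN_n_sq]
    unfold S2
    calc ∑ v, F v ^ 2 = ∑ v, F v * Av G (fun w => c w * Av G h w) v :=
          Finset.sum_congr rfl fun v _ => by rw [← hF, sq]
      _ = ∑ v, Av G F v * (c v * Av G h v) := GREEN_sym G F _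
      _ = ∑ v, c v * Av G F v * Av G h v := Finset.sum_congr rfl fun v _ => by ring
  have h2 := GREEN_bil G c M hB F h
  have h3 : GREEN_n F ^ 2 ≤ M * (GREEN_n F * GREEN_n h) := by
    rw [h1]; exact le_trans (le_abs_self _) h2
  by_cases h0 : GREEN_n F = 0
  · rw [h0]; exact mul_nonneg hM (GREEN_n_nonneg _)
  have hpos : 0 < GREEN_n F := lt_of_le_of_ne (GREEN_n_nonneg F) (Ne.symm h0)
  have h4 : GREEN_n F * GREEN_n F ≤ GREEN_n F * (M * GREEN_n h) := by nlinarith
  exact le_of_mul_le_mul_left h4 hpos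

/-- the neighbours of `v` in the bipartite graph -/
def GREEN_Ne {V : Type} [Fintype V] (G : SimpleGraph V) (a b : V → Bool) (s : Bool) (v : V) :
    Finset V := (Nb G v).filter (fun w => Ve a b s w ∧ b w ≠ b v)

lemma GREEN_type {V : Type} (a b : V → Bool) (s β : Bool) (w : V) :
    (Ve a b s w ∧ b w ≠ β) ↔ (a w = (!β == s) ∧ b w = !β) := by
  unfold Ve
  cases h1 : a w <;> cases h2 : b w <;> cases s <;> cases β <;> simp

lemma GREEN_typeX {V : Type} (a b : V → Bool) (s : Bool) (w : V) :
    (Ve a b s w ∧ b w = true) ↔ (a w = s ∧ b w = true) := by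
  unfold Ve
  cases h1 : a w <;> cases h2 : b w <;> cases s <;> simp

lemma GREEN_typeY {V : Type} (a b : V → Bool) (s : Bool) (w : V) :
    (Ve a b s w ∧ b w = false) ↔ (a w = (!s) ∧ b w = false) := by
  unfold Ve
  cases h1 : a w <;> cases h2 : b w <;> cases s <;> simp

lemma GREEN_card {V : Type} [Fintype V] (G : SimpleGraph V) (D m : ℕ) (a b : V → Bool) (s : Bool)
    (hP : GoodPair G D m a b) (v : V) :
    |((GREEN_Ne G a b s v).card : ℝ) - D / 4| ≤ 3 / 2 * Real.sqrt (m * D) := by
  have h := hP.1 v (!(b v) == s) (!(b v))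
  have e : GREEN_Ne G a b s v =
      (Nb G v).filter (fun w => a w = (!(b v) == s) ∧ b w = !(b v)) := by
    unfold GREEN_Ne
    refine Finset.filter_congr fun w _ => ?_
    exact GREEN_type a b s (b v) w
  rw [e]
  exact h

theorem lp_GREEN (hL : Lap_stmt) : Green_stmt := by
  intro V _ G D m a b s u g hR hm hD hP hu hg
  obtain ⟨hex, _, hmax, hsym, hen⟩ := hL V G a b s (Real.sqrt D)
    (Real.sqrt_pos.mpr (by have : 0 < D := by omega
                           exact_mod_cast this))
  -- real parameters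
  set r : ℝ := Real.sqrt D with hr
  set μ : ℝ := Real.sqrt m with hμ
  have hD0 : (0 : ℝ) ≤ D := Nat.cast_nonneg D
  have hm0 : (0 : ℝ) ≤ m := Nat.cast_nonneg m
  have hr2 : (D : ℝ) = r ^ 2 := by rw [hr, Real.sq_sqrt hD0]
  have hμ2 : (m : ℝ) = μ ^ 2 := by rw [hμ, Real.sq_sqrt hm0]
  have hμ1 : 1 ≤ μ := by
    rw [hμ]; exact Real.one_le_sqrt.mpr (by exact_mod_cast hm)
  have hrμ : 12 * μ ≤ r := by
    have h1 : (144 : ℝ) * m ≤ D := by exact_mod_cast hD
    rw [hr2, hμ2] at h1
    have hr0 : 0 ≤ r := Real.sqrt_nonneg _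
    by_contra hc
    have hc' : r < 12 * μ := not_le.mp hc
    nlinarith
  have hr12 : 12 ≤ r := by linarith
  have hrpos : 0 < r := by linarith
  have hmD : Real.sqrt (m * D) = μ * r := by rw [Real.sqrt_mul hm0]
  have hrr : Real.sqrt D = r := hr.symm
  have hμμ : Real.sqrt m = μ := hμ.symm
  clear_value r μ
  have hcard : ∀ v, |((GREEN_Ne G a b s v).card : ℝ) - D / 4| ≤ 3 / 2 * (μ * r) := by
    intro v
    rw [← hmD]
    exact GREEN_card G D m a b s hP v
  obtain ⟨d, hd⟩ : ∃ d : ℝ, d = ((GREEN_Ne G a b s u).card : ℝ) := ⟨_, rfl⟩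
  have hd8 : (D : ℝ) / 8 ≤ d := by
    have h1 := (abs_le.mp (hcard u)).1
    rw [← hd] at h1
    have h2 : 12 * (μ * r) ≤ D := by rw [hr2]; nlinarith
    linarith
  have hdpos : 0 < d := by
    have : (0 : ℝ) < D := by rw [hr2]; positivity
    linarith
  -- the singular part
  set g0 : V → ℝ := fun v => if v = u then 1 / (d + r) else 0 with hg0
  set g1 : V → ℝ := fun v => g v - g0 v with hg1
  set q : V → ℝ := fun v => if v ∈ GREEN_Ne G a b s u then 1 / (d + r) else 0 with hq
  have hdr : 0 < d + r := by linarith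
  have hLap0 : ∀ v, Ve a b s v → Lap G a b s g0 v + r * g0 v = dl u v - q v := by
    intro v hv
    by_cases hvu : v = u
    · subst hvu
      have h1 : Lap G a b s g0 v = d / (d + r) := by
        unfold Lap
        have h2 : ∀ w ∈ (Nb G v).filter (fun w => Ve a b s w ∧ b w ≠ b v),
            g0 v - g0 w = 1 / (d + r) := by
          intro w hw
          rw [Finset.mem_filter] at hw
          have hwv : w ≠ v := fun h => hw.2.2 (by rw [h])
          simp only [hg0, if_true, if_neg hwv, sub_zero]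
        rw [Finset.sum_congr rfl h2, Finset.sum_const, nsmul_eq_mul]
        have : (((Nb G v).filter (fun w => Ve a b s w ∧ b w ≠ b v)).card : ℝ) = d := hd.symm
        rw [this]; ring
      have h3 : q v = 0 := by
        simp only [hq]
        rw [if_neg]
        intro h
        unfold GREEN_Ne at h
        rw [Finset.mem_filter] at h
        exact h.2.2 rfl
      rw [h1, h3]
      simp only [hg0, dl, if_true]
      field_simp
      ring
    · have h1 : Lap G a b s g0 v = -q v := by
        unfold Lap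
        have h2 : ∀ w ∈ (Nb G v).filter (fun w => Ve a b s w ∧ b w ≠ b v),
            g0 v - g0 w = if w = u then -(1 / (d + r)) else 0 := by
          intro w hw
          by_cases hwu : w = u
          · simp only [hg0, if_neg hvu, if_pos hwu, zero_sub]
          · simp only [hg0, if_neg hvu, if_neg hwu, sub_zero]
        rw [Finset.sum_congr rfl h2, Finset.sum_ite_eq']
        simp only [hq]
        have h3 : u ∈ (Nb G v).filter (fun w => Ve a b s w ∧ b w ≠ b v) ↔
            v ∈ GREEN_Ne G a b s u := by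
          unfold GREEN_Ne Nb
          simp only [Finset.mem_filter, Finset.mem_univ, true_and]
          constructor
          · rintro ⟨h4, _, h5⟩
            exact ⟨h4.symm, hv, fun h => h5 h.symm⟩
          · rintro ⟨h4, _, h5⟩
            exact ⟨h4.symm, hu, fun h => h5 h.symm⟩
        by_cases h4 : v ∈ GREEN_Ne G a b s u
        · rw [if_pos h4, if_pos (h3.mpr h4)]
        · rw [if_neg h4, if_neg (fun h => h4 (h3.mp h))]; simp
      rw [h1]
      simp only [hg0, dl, if_neg hvu]
      ring
  have hpot1 : IsPot G a b s r q g1 := by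
    refine ⟨?_, ?_⟩
    · intro v hv
      have hvu : v ≠ u := fun h => hv (h ▸ hu)
      simp only [hg1, hg0, if_neg hvu, sub_zero]
      exact hg.1 v hv
    · intro v hv
      have h1 := hg.2 v hv
      have h2 := hLap0 v hv
      have h3 : Lap G a b s g1 v = Lap G a b s g v - Lap G a b s g0 v := by
        unfold Lap
        rw [← Finset.sum_sub_distrib]
        refine Finset.sum_congr rfl fun w _ => ?_
        simp only [hg1]; ring
      rw [h3]
      simp only [hg1]
      linarith
  have hqS : ∑ v, q v ^ 2 ≤ 8 / r ^ 2 := by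
    have h1 : ∑ v, q v ^ 2 = d / (d + r) ^ 2 := by
      have h2 : ∀ v, q v ^ 2 = if v ∈ GREEN_Ne G a b s u then (1 / (d + r)) ^ 2 else 0 := by
        intro v
        simp only [hq]
        split_ifs <;> simp
      simp_rw [h2]
      rw [Finset.sum_ite_mem, Finset.univ_inter, Finset.sum_const, nsmul_eq_mul]
      rw [← hd]
      field_simp
    rw [h1]
    have h3 : r ^ 2 ≤ 8 * d := by rw [← hr2]; linarith
    rw [div_le_div_iff₀ (by positivity) (by positivity)]
    nlinarith [mul_nonneg hdpos.le hrpos.le, sq_nonneg r]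
  have hE := hen q g1 hpot1
  have hqS' : ∑ v, (if Ve a b s v then q v ^ 2 else 0) ≤ 8 / r ^ 2 := by
    refine le_trans (Finset.sum_le_sum fun v _ => ?_) hqS
    split_ifs
    · exact le_refl _
    · exact sq_nonneg _
  set Lg : V → ℝ := fun v => if Ve a b s v then Lap G a b s g1 v else 0 with hLg
  have hLgS : S2 Lg = ∑ v, (if Ve a b s v then Lap G a b s g1 v ^ 2 else 0) := by
    unfold S2
    refine Finset.sum_congr rfl fun v _ => ?_
    simp only [hLg]
    split_ifs <;> simp
  rw [← hLgS] at hE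
  have hE' : r ^ 2 * S2 g1 + S2 Lg ≤ 8 / r ^ 2 := le_trans hE hqS'
  have hS1 : S2 g1 ≤ 8 / r ^ 4 := by
    have h1 : r ^ 2 * S2 g1 ≤ 8 / r ^ 2 := by linarith [GREEN_S2_nonneg Lg]
    rw [le_div_iff₀ (by positivity)] at h1 ⊢
    nlinarith
  have hSL : S2 Lg ≤ 8 / r ^ 2 := by
    have := GREEN_S2_nonneg g1
    nlinarith [sq_nonneg r, mul_nonneg (sq_nonneg r) this]
  have h8 : Real.sqrt 8 ≤ 2.83 := by
    rw [Real.sqrt_le_left (by norm_num)]; norm_num
  have h80 : 0 ≤ Real.sqrt 8 := Real.sqrt_nonneg _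
  have h8sq : Real.sqrt 8 ^ 2 = 8 := Real.sq_sqrt (by norm_num)
  have hn1 : GREEN_n g1 ≤ 2.83 / r ^ 2 := by
    apply GREEN_n_le (by positivity)
    refine le_trans hS1 ?_
    rw [div_pow, ← pow_mul]
    apply div_le_div_of_nonneg_right _ (by positivity)
    norm_num
  have hnL : GREEN_n Lg ≤ 2.83 / r := by
    apply GREEN_n_le (by positivity)
    refine le_trans hSL ?_
    rw [div_pow]
    apply div_le_div_of_nonneg_right _ (by positivity)
    norm_num
  have hS0 : S2 g0 ≤ 64 / r ^ 4 := by
    have h1 : S2 g0 = (1 / (d + r)) ^ 2 := by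
      unfold S2
      have h2 : ∀ v, g0 v ^ 2 = if v = u then (1 / (d + r)) ^ 2 else 0 := by
        intro v
        simp only [hg0]
        split_ifs <;> simp
      simp_rw [h2]
      rw [Finset.sum_ite_eq']
      simp
    rw [h1, div_pow, one_pow]
    have h3 : r ^ 2 ≤ 8 * (d + r) := by rw [← hr2]; linarith
    rw [div_le_div_iff₀ (by positivity) (by positivity), one_mul]
    have h4 : 0 ≤ r ^ 2 := sq_nonneg r
    calc r ^ 4 = (r ^ 2) * (r ^ 2) := by ring
      _ ≤ (8 * (d + r)) * (8 * (d + r)) := mul_le_mul h3 h3 h4 (by positivity)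
      _ = 64 * (d + r) ^ 2 := by ring
  have hgsplit : ∀ v, g v = g0 v + g1 v := fun v => by simp only [hg1]; ring
  have hS2g : S2 g ≤ 144 / r ^ 4 := by
    have h1 : S2 g ≤ 2 * S2 g0 + 2 * S2 g1 := by
      unfold S2
      rw [Finset.mul_sum, Finset.mul_sum, ← Finset.sum_add_distrib]
      refine Finset.sum_le_sum fun v _ => ?_
      rw [hgsplit v]
      nlinarith [sq_nonneg (g0 v - g1 v)]
    calc S2 g ≤ 2 * (64 / r ^ 4) + 2 * (8 / r ^ 4) := by linarith
      _ = 144 / r ^ 4 := by ring
  have hD4 : (D : ℝ) ^ 2 = r ^ 4 := by rw [hr2]; ring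
  refine ⟨?_, ?_, ?_, ?_, ?_⟩
  · -- the l1 bound
    obtain ⟨z', hz'⟩ := hex (fun v => if 0 ≤ g v then 1 else -1)
    have h1 := hsym (fun v => if 0 ≤ g v then 1 else -1) (dl u) z' g hz' hg
    have h2 := hmax (fun v => if 0 ≤ g v then 1 else -1) z' hz'
      (fun v => by split_ifs <;> simp) u
    have h3 : ∑ v, (if Ve a b s v then (if 0 ≤ g v then (1 : ℝ) else -1) * g v else 0) =
        ∑ v, |g v| := by
      refine Finset.sum_congr rfl fun v _ => ?_
      by_cases hv : Ve a b s v
      · rw [if_pos hv]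
        by_cases h : 0 ≤ g v
        · rw [if_pos h, abs_of_nonneg h, one_mul]
        · rw [if_neg h, abs_of_neg (not_le.mp h)]; ring
      · rw [if_neg hv, hg.1 v hv, abs_zero]
    have h4 : ∑ v, (if Ve a b s v then dl u v * z' v else 0) = z' u := by
      rw [Finset.sum_eq_single u]
      · rw [if_pos hu]; simp [dl]
      · intro v _ hvu
        simp [dl, hvu]
      · intro h; exact absurd (Finset.mem_univ u) h
    have h5 : ∑ v, |g v| = z' u := by
      rw [← h3, ← h4]
      exact h1
    rw [h5]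
    exact le_trans (le_abs_self _) h2
  · rw [hD4]; exact hS2g
  · intro v
    have h1 : Av G g v = Av G g0 v + Av G g1 v := by
      rw [← GREEN_Av_add]
      congr 1
      funext w
      exact hgsplit w
    have h2 : |Av G g0 v| ≤ 8 / r ^ 2 := by
      have h3 : Av G g0 v = if G.Adj v u then 1 / (d + r) else 0 := by
        rw [GREEN_Av_eq, Finset.sum_eq_single u]
        · simp only [hg0, if_true]
        · intro w _ hwu
          simp only [hg0, if_neg hwu, ite_self]
        · intro h; exact absurd (Finset.mem_univ u) h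
      rw [h3]
      have h4 : 1 / (d + r) ≤ 8 / r ^ 2 := by
        rw [div_le_div_iff₀ (by positivity) (by positivity)]
        have : r ^ 2 ≤ 8 * d := by rw [← hr2]; linarith
        linarith
      split_ifs
      · rw [abs_of_pos (by positivity)]; exact h4
      · rw [abs_zero]; positivity
    have h5 : |Av G g1 v| ≤ 2.83 / r := by
      apply abs_le_of_sq_le_sq _ (by positivity)
      have h6 := GREEN_AvSq G D hR g1 v
      have h7 : Av G (fun w => g1 w ^ 2) v ≤ S2 g1 := by
        unfold Av S2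
        exact Finset.sum_le_sum_of_subset_of_nonneg (Finset.subset_univ _)
          (fun w _ _ => sq_nonneg _)
      calc Av G g1 v ^ 2 ≤ D * Av G (fun w => g1 w ^ 2) v := h6
        _ ≤ D * (8 / r ^ 4) := mul_le_mul_of_nonneg_left (le_trans h7 hS1) hD0
        _ = 8 / r ^ 2 := by rw [hr2]; field_simp
        _ ≤ (2.83 / r) ^ 2 := by
            rw [div_pow]
            apply div_le_div_of_nonneg_right _ (by positivity)
            norm_num
    rw [h1]
    refine le_trans (abs_add_le _ _) (le_trans (add_le_add h2 h5) ?_)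
    have h8' : 8 / r ^ 2 ≤ 1 / r := by
      rw [div_le_div_iff₀ (by positivity) (by positivity), one_mul, sq]
      exact mul_le_mul_of_nonneg_right (by linarith) hrpos.le
    calc 8 / r ^ 2 + 2.83 / r ≤ 1 / r + 2.83 / r := by linarith
      _ = 3.83 / r := by ring
      _ ≤ 11 / r := by
          apply div_le_div_of_nonneg_right _ hrpos.le
          norm_num
  · have h1 := GREEN_S2Av G D hR g
    calc S2 (Av G g) ≤ (D : ℝ) ^ 2 * S2 g := h1
      _ ≤ r ^ 4 * (144 / r ^ 4) := by
          rw [hD4]; exact mul_le_mul_of_nonneg_left hS2g (by positivity)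
      _ = 144 := by field_simp
  · -- the smoothness bound
    set cX : V → ℝ := fun v => if a v = s ∧ b v = true then 1 else 0 with hcX
    set cY : V → ℝ := fun v => if a v = (!s) ∧ b v = false then 1 else 0 with hcY
    set gX : V → ℝ := fun v => cX v * g1 v with hgX
    set gY : V → ℝ := fun v => cY v * g1 v with hgY
    set De : V → ℝ := fun v => ((GREEN_Ne G a b s v).card : ℝ) with hDe
    have hXY : ∀ v, g1 v = gX v + gY v := by
      intro v
      simp only [hgX, hgY, hcX, hcY]
      by_cases hv : Ve a b s v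
      · cases hb : b v
        · have h1 := (GREEN_typeY a b s v).mp ⟨hv, hb⟩
          rw [if_neg (by simp), if_pos ⟨h1.1, rfl⟩]; ring
        · have h1 := (GREEN_typeX a b s v).mp ⟨hv, hb⟩
          rw [if_pos ⟨h1.1, rfl⟩, if_neg (by simp)]; ring
      · rw [hpot1.1 v hv]; ring
    have hLgeq : ∀ v, Lg v = De v * g1 v - cX v * Av G gY v - cY v * Av G gX v := by
      intro v
      by_cases hv : Ve a b s v
      · have h0 : Lg v = De v * g1 v - ∑ w ∈ GREEN_Ne G a b s v, g1 w := by
          simp only [hLg, if_pos hv]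
          unfold Lap
          rw [Finset.sum_sub_distrib, Finset.sum_const, nsmul_eq_mul]
          rfl
        cases hb : b v
        · have h1 := (GREEN_typeY a b s v).mp ⟨hv, hb⟩
          have e1 : cX v = 0 := by simp only [hcX]; rw [if_neg (by simp [hb])]
          have e2 : cY v = 1 := by simp only [hcY]; rw [if_pos h1]
          have e3 : ∑ w ∈ GREEN_Ne G a b s v, g1 w = Av G gX v := by
            unfold GREEN_Ne Av
            rw [Finset.sum_filter]
            refine Finset.sum_congr rfl fun w _ => ?_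
            simp only [hgX, hcX]
            have h2 : (Ve a b s w ∧ b w ≠ b v) ↔ (a w = s ∧ b w = true) := by
              rw [← GREEN_typeX, hb]
              simp
            by_cases h3 : (a w = s ∧ b w = true)
            · rw [if_pos (h2.mpr h3), if_pos h3]; ring
            · rw [if_neg (fun h => h3 (h2.mp h)), if_neg h3]; ring
          rw [h0, e1, e2, e3]; ring
        · have h1 := (GREEN_typeX a b s v).mp ⟨hv, hb⟩
          have e1 : cY v = 0 := by simp only [hcY]; rw [if_neg (by simp [hb])]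
          have e2 : cX v = 1 := by simp only [hcX]; rw [if_pos h1]
          have e3 : ∑ w ∈ GREEN_Ne G a b s v, g1 w = Av G gY v := by
            unfold GREEN_Ne Av
            rw [Finset.sum_filter]
            refine Finset.sum_congr rfl fun w _ => ?_
            simp only [hgY, hcY]
            have h2 : (Ve a b s w ∧ b w ≠ b v) ↔ (a w = (!s) ∧ b w = false) := by
              rw [← GREEN_typeY, hb]
              simp
            by_cases h3 : (a w = (!s) ∧ b w = false)
            · rw [if_pos (h2.mpr h3), if_pos h3]; ring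
            · rw [if_neg (fun h => h3 (h2.mp h)), if_neg h3]; ring
          rw [h0, e1, e2, e3]; ring
      · have e1 : cX v = 0 := by
          simp only [hcX]; rw [if_neg (fun h => hv ((GREEN_typeX a b s v).mpr h).1)]
        have e2 : cY v = 0 := by
          simp only [hcY]; rw [if_neg (fun h => hv ((GREEN_typeY a b s v).mpr h).1)]
        rw [e1, e2, hpot1.1 v hv]
        simp only [hLg, if_neg hv]
        ring
    have hSXY : S2 gX + S2 gY ≤ S2 g1 := by
      unfold S2
      rw [← Finset.sum_add_distrib]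
      refine Finset.sum_le_sum fun v _ => ?_
      simp only [hgX, hgY, hcX, hcY]
      cases hb : b v
      · simp only [Bool.false_eq_true, and_false, if_false, and_true]
        split_ifs
        · simp
        · simpa using sq_nonneg (g1 v)
      · simp only [and_true, Bool.true_eq_false, and_false, if_false]
        split_ifs
        · simp
        · simpa using sq_nonneg (g1 v)
    have hnXY : GREEN_n gX + GREEN_n gY ≤ 4 / r ^ 2 := by
      apply abs_le_of_sq_le_sq' _ (by positivity) |>.2
      have h1 := GREEN_n_sq gX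
      have h2 := GREEN_n_sq gY
      have h3 : (4 / r ^ 2) ^ 2 = 2 * (8 / r ^ 4) := by ring
      rw [h3]
      nlinarith [sq_nonneg (GREEN_n gX - GREEN_n gY)]
    -- the decomposition
    set T1 : V → ℝ := Av G Lg with hT1
    set T2 : V → ℝ := Av G (fun w => (De w - D / 4) * g1 w) with hT2
    set T3 : V → ℝ := Av G (fun w => (cX w - 1 / 4) * Av G gY w) with hT3
    set T4 : V → ℝ := Av G (fun w => (cY w - 1 / 4) * Av G gX w) with hT4
    have hDpos : (0 : ℝ) < D := by rw [hr2]; positivity
    have hdec : ∀ v, Av G g1 v - Av G (Av G g1) v / D =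
        4 / D * T1 v - 4 / D * T2 v + (4 / D * T3 v + 4 / D * T4 v) := by
      intro v
      simp only [hT1, hT2, hT3, hT4]
      unfold Av
      rw [Finset.mul_sum, Finset.mul_sum, Finset.mul_sum, Finset.mul_sum, Finset.sum_div,
        ← Finset.sum_sub_distrib, ← Finset.sum_sub_distrib, ← Finset.sum_add_distrib,
        ← Finset.sum_add_distrib]
      refine Finset.sum_congr rfl fun w _ => ?_
      have h1 := hLgeq w
      have h2 : ∑ x ∈ Nb G w, g1 x = Av G gX w + Av G gY w := by
        rw [← GREEN_Av_add]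
        unfold Av
        exact Finset.sum_congr rfl fun x _ => hXY x
      rw [h2, h1]
      unfold Av
      field_simp
      ring
    have hopX := GREEN_op G (fun w => cX w - 1 / 4) (6 * Real.sqrt m * (D * Real.sqrt D))
      (by positivity) (fun f h hf hh => hP.2 f h s true hf hh) gY
    have hopY := GREEN_op G (fun w => cY w - 1 / 4) (6 * Real.sqrt m * (D * Real.sqrt D))
      (by positivity) (fun f h hf hh => hP.2 f h (!s) false hf hh) gX
    have hM : 6 * Real.sqrt m * (D * Real.sqrt D) = 6 * μ * r ^ 3 := by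
      rw [hμμ, hrr, hr2]; ring
    rw [hM] at hopX hopY
    have hb1 : GREEN_n T1 ≤ r ^ 2 * (2.83 / r) := by
      refine le_trans (GREEN_nAv G D hR Lg) ?_
      rw [hr2]
      exact mul_le_mul_of_nonneg_left hnL (by positivity)
    have hb2 : GREEN_n T2 ≤ r ^ 2 * (3 / 2 * (μ * r) * (2.83 / r ^ 2)) := by
      refine le_trans (GREEN_nAv G D hR _) ?_
      rw [hr2]
      refine mul_le_mul_of_nonneg_left ?_ (by positivity)
      have h1 : GREEN_n (fun w => (De w - r ^ 2 / 4) * g1 w) ≤ 3 / 2 * (μ * r) * GREEN_n g1 := by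
        apply GREEN_n_le (mul_nonneg (by positivity) (GREEN_n_nonneg _))
        rw [mul_pow, GREEN_n_sq]
        unfold S2
        rw [Finset.mul_sum]
        refine Finset.sum_le_sum fun v _ => ?_
        rw [mul_pow]
        refine mul_le_mul_of_nonneg_right ?_ (sq_nonneg _)
        have h2 := hcard v
        rw [hr2] at h2
        exact sq_le_sq' (by linarith [(abs_le.mp h2).1]) (abs_le.mp h2).2
      refine le_trans h1 ?_
      exact mul_le_mul_of_nonneg_left hn1 (by positivity)
    have hb34 : GREEN_n T3 + GREEN_n T4 ≤ 6 * μ * r ^ 3 * (4 / r ^ 2) := by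
      calc GREEN_n T3 + GREEN_n T4 ≤ 6 * μ * r ^ 3 * GREEN_n gY + 6 * μ * r ^ 3 * GREEN_n gX :=
            add_le_add hopX hopY
        _ = 6 * μ * r ^ 3 * (GREEN_n gX + GREEN_n gY) := by ring
        _ ≤ 6 * μ * r ^ 3 * (4 / r ^ 2) := mul_le_mul_of_nonneg_left hnXY (by positivity)
    have hN1 : GREEN_n (fun v => Av G g1 v - Av G (Av G g1) v / D) ≤ 125 * μ / r := by
      have e : (fun v => Av G g1 v - Av G (Av G g1) v / D) =
          fun v => (4 / D * T1 v - 4 / D * T2 v) + (4 / D * T3 v + 4 / D * T4 v) := by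
        funext v; exact hdec v
      rw [e]
      have h1 : GREEN_n (fun v => (4 / D * T1 v - 4 / D * T2 v) + (4 / D * T3 v + 4 / D * T4 v)) ≤
          (GREEN_n (fun v => 4 / D * T1 v) + GREEN_n (fun v => 4 / D * T2 v)) +
          (GREEN_n (fun v => 4 / D * T3 v) + GREEN_n (fun v => 4 / D * T4 v)) :=
        le_trans (GREEN_n_add _ _) (add_le_add (GREEN_n_sub _ _) (GREEN_n_add _ _))
      rw [GREEN_n_smul, GREEN_n_smul, GREEN_n_smul, GREEN_n_smul,
        abs_of_pos (show (0 : ℝ) < 4 / D by positivity)] at h1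
      refine le_trans h1 ?_
      have h2 : 4 / (D : ℝ) * GREEN_n T1 + 4 / D * GREEN_n T2 +
          (4 / D * GREEN_n T3 + 4 / D * GREEN_n T4) =
          4 / D * (GREEN_n T1 + GREEN_n T2 + (GREEN_n T3 + GREEN_n T4)) := by ring
      rw [h2, hr2]
      have h3 : 4 / r ^ 2 * (GREEN_n T1 + GREEN_n T2 + (GREEN_n T3 + GREEN_n T4)) ≤
          4 / r ^ 2 * (r ^ 2 * (2.83 / r) + r ^ 2 * (3 / 2 * (μ * r) * (2.83 / r ^ 2)) +
            6 * μ * r ^ 3 * (4 / r ^ 2)) :=
        mul_le_mul_of_nonneg_left (by linarith) (by positivity)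
      refine le_trans h3 ?_
      have h4 : 4 / r ^ 2 * (r ^ 2 * (2.83 / r) + r ^ 2 * (3 / 2 * (μ * r) * (2.83 / r ^ 2)) +
            6 * μ * r ^ 3 * (4 / r ^ 2)) = (11.32 + 16.98 * μ + 96 * μ) / r := by
        field_simp
        ring
      rw [h4]
      apply div_le_div_of_nonneg_right _ hrpos.le
      nlinarith
    have hN0 : GREEN_n (fun v => Av G g0 v - Av G (Av G g0) v / D) ≤ 16 / r := by
      -- `‖A g0‖² = D / (d + r)²`
      have h1 : S2 (Av G g0) = D * (1 / (d + r)) ^ 2 := by
        have h3 : ∀ v, Av G g0 v = if G.Adj u v then 1 / (d + r) else 0 := by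
          intro v
          rw [GREEN_Av_eq, Finset.sum_eq_single u]
          · simp only [hg0, if_true, G.adj_comm v u]
          · intro w _ hwu
            simp only [hg0, if_neg hwu, ite_self]
          · intro h; exact absurd (Finset.mem_univ u) h
        unfold S2
        have h4 : ∀ v, Av G g0 v ^ 2 = if G.Adj u v then (1 / (d + r)) ^ 2 else 0 := by
          intro v
          rw [h3 v]
          split_ifs <;> simp
        simp_rw [h4]
        rw [← Finset.sum_filter, Finset.sum_const, nsmul_eq_mul]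
        have h5 := hR u
        unfold Nb at h5
        rw [h5]
      have h2 : GREEN_n (Av G g0) ≤ 8 / r := by
        apply GREEN_n_le (by positivity)
        rw [h1, hr2, div_pow, div_pow, one_pow]
        have h3 : r ^ 2 ≤ 8 * (d + r) := by rw [← hr2]; linarith
        rw [mul_one_div, div_le_div_iff₀ (by positivity) (by positivity)]
        have h4 : 0 ≤ r ^ 2 := sq_nonneg r
        calc r ^ 2 * r ^ 2 ≤ (8 * (d + r)) * (8 * (d + r)) := mul_le_mul h3 h3 h4 (by positivity)
          _ = 8 ^ 2 * (d + r) ^ 2 := by ring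
      have h3 : GREEN_n (fun v => Av G (Av G g0) v / D) ≤ GREEN_n (Av G g0) := by
        have h4 : (fun v => Av G (Av G g0) v / (D : ℝ)) =
            fun v => (1 / (D : ℝ)) * Av G (Av G g0) v := by
          funext v; ring
        rw [h4, GREEN_n_smul, abs_of_pos (show (0 : ℝ) < 1 / D by positivity)]
        have h5 := GREEN_nAv G D hR (Av G g0)
        calc 1 / (D : ℝ) * GREEN_n (Av G (Av G g0)) ≤ 1 / D * (D * GREEN_n (Av G g0)) :=
              mul_le_mul_of_nonneg_left h5 (by positivity)
          _ = GREEN_n (Av G g0) := by field_simp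
      refine le_trans (GREEN_n_sub _ _) ?_
      calc GREEN_n (fun v => Av G g0 v) + GREEN_n (fun v => Av G (Av G g0) v / D) ≤
            8 / r + 8 / r := add_le_add h2 (le_trans h3 h2)
        _ = 16 / r := by ring
    have hN : GREEN_n (fun v => Av G g v - Av G (Av G g) v / D) ≤ 150 * μ / r := by
      have e : (fun v => Av G g v - Av G (Av G g) v / D) =
          fun v => (Av G g0 v - Av G (Av G g0) v / D) + (Av G g1 v - Av G (Av G g1) v / D) := by
        have h1 : ∀ v, Av G g v = Av G g0 v + Av G g1 v := by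
          intro v
          rw [← GREEN_Av_add]
          congr 1
          funext w
          exact hgsplit w
        funext v
        have h2 : Av G (Av G g) v = Av G (Av G g0) v + Av G (Av G g1) v := by
          rw [← GREEN_Av_add]
          congr 1
          funext w
          exact h1 w
        rw [h1, h2]
        ring
      rw [e]
      refine le_trans (GREEN_n_add _ _) (le_trans (add_le_add hN0 hN1) ?_)
      rw [← add_div]
      apply div_le_div_of_nonneg_right _ hrpos.le
      nlinarith
    unfold Sm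
    rw [← GREEN_n_sq]
    calc GREEN_n (fun v => Av G g v - Av G (Av G g) v / D) ^ 2 ≤ (150 * μ / r) ^ 2 :=
          pow_le_pow_left₀ (GREEN_n_nonneg _) hN 2
      _ = 22500 * m / D := by rw [hr2, hμ2]; ring

end

end Pool.Agent.Helper15.LP
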